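import Pool.Agent.W_92892c_h85.Hand
import Pool.Agent.W_92892c_h88f.Form47
import Pool.Agent.W_92892c_h88f.Abs47

/-!
A coset `T` of a group of square classes, as an abstract elementary 2-group (MP_92892c_nt, text
FINITE / LOCAL).
-/

open Filter Topology

namespace MQF

open MQV PowerSeries

/-- A set of squarefree integers, closed under `x, y, z ↦` the squarefree part of `x y z`. -/
structure TSet (T : Set ℤ) : Prop where
  sqfree : ∀ d ∈ T, Squarefree d
  closed : ∀ x ∈ T, ∀ y ∈ T, ∀ z ∈ T, ∃ w ∈ T, IsSquare (x * y * z * w)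

theorem nat_sq {m n : ℕ} (hm : Squarefree m) (hn : Squarefree n) (h : IsSquare (m * n)) :
    m = n := by
  obtain ⟨z, hz⟩ := h
  have key : ∀ m n : ℕ, Squarefree m → m * n = z * z → m ∣ n := by
    intro m n hm hz
    have h1 : m ∣ z ^ 2 := ⟨n, by rw [sq]; exact hz.symm⟩
    obtain ⟨k, rfl⟩ := (hm.dvd_pow_iff_dvd two_ne_zero).1 h1
    have hm0 : 0 < m := Nat.pos_of_ne_zero hm.ne_zero
    refine ⟨k * k, Nat.eq_of_mul_eq_mul_left hm0 ?_⟩
    rw [hz]
    ring
  exact Nat.dvd_antisymm (key m n hm hz) (key n m hn (by rw [mul_comm]; exact hz))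

theorem int_sq {u v : ℤ} (hu : Squarefree u) (hv : Squarefree v) (h : IsSquare (u * v)) :
    u = v := by
  obtain ⟨z, hz⟩ := h
  have h1 : u.natAbs = v.natAbs := by
    refine nat_sq (Int.squarefree_natAbs.2 hu) (Int.squarefree_natAbs.2 hv) ⟨z.natAbs, ?_⟩
    rw [← Int.natAbs_mul, hz, Int.natAbs_mul]
  rcases Int.natAbs_eq_natAbs_iff.1 h1 with h2 | h2
  · exact h2
  · exfalso
    have hv0 : v ≠ 0 := hv.ne_zero
    have h3 : 0 < v * v := mul_self_pos.2 hv0
    have h4 : 0 ≤ z * z := mul_self_nonneg z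
    rw [h2] at hz
    nlinarith

theorem sqf_zero {real : Bool} : sqf (0 : Cls real) = 1 := by
  unfold sqf
  simp

theorem sqf_sqfree {real : Bool} (a : Cls real) : Squarefree (sqf a) := (sqf_mem a).1

theorem sum_zero {real : Bool} {a b c d : Cls real}
    (h : IsSquare (sqf a * sqf b * sqf c * sqf d)) : a + b + c + d = 0 := by
  have h1 : IsSquare (sqf a * sqf b * sqf c * sqf (a + b + c)) :=
    isSquare_four (cls_add_self _)
  have h2 : IsSquare (sqf d * sqf (a + b + c) *
      ((sqf a * sqf b * sqf c) * (sqf a * sqf b * sqf c))) := by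
    have h3 := h.mul h1
    have h4 : sqf a * sqf b * sqf c * sqf d * (sqf a * sqf b * sqf c * sqf (a + b + c)) =
        sqf d * sqf (a + b + c) * ((sqf a * sqf b * sqf c) * (sqf a * sqf b * sqf c)) := by ring
    rwa [h4] at h3
  have h0 : sqf a * sqf b * sqf c ≠ 0 :=
    mul_ne_zero (mul_ne_zero (sqf_sqfree a).ne_zero (sqf_sqfree b).ne_zero) (sqf_sqfree c).ne_zero
  have h3 : IsSquare (sqf d * sqf (a + b + c)) := by
    obtain ⟨z, hz⟩ := h2
    have h5 : (sqf a * sqf b * sqf c) ∣ z := by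
      have h6 : (sqf a * sqf b * sqf c) ^ 2 ∣ z ^ 2 :=
        ⟨sqf d * sqf (a + b + c), by rw [sq, sq, ← hz]; ring⟩
      exact (Int.pow_dvd_pow_iff two_ne_zero).1 h6
    obtain ⟨y, rfl⟩ := h5
    refine ⟨y, ?_⟩
    have h7 : (sqf a * sqf b * sqf c) * (sqf a * sqf b * sqf c) ≠ 0 := mul_ne_zero h0 h0
    apply mul_right_cancel₀ h7
    rw [hz]
    ring
  have h4 := int_sq (sqf_sqfree _) (sqf_sqfree _) h3
  rw [sqf_injective h4]
  exact cls_add_self _

/-- The group of a coset `T`, with base `τ`. -/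
noncomputable def grp (T : Set ℤ) (hT : TSet T) (τ : Cls false) (hτ : sqf τ ∈ T) :
    AddSubgroup (Cls false) where
  carrier := {a | sqf (τ + a) ∈ T}
  zero_mem' := by
    show sqf (τ + 0) ∈ T
    rwa [add_zero]
  add_mem' := by
    intro a b ha hb
    obtain ⟨w, hw, hsq⟩ := hT.closed _ ha _ hb _ hτ
    obtain ⟨c, rfl⟩ := exists_sqf (real := false) (d := w) ⟨hT.sqfree w hw, by simp⟩
    have h1 := sum_zero hsq
    have h2 : c = τ + (a + b) := by
      have h3 : τ + (a + b) = τ + (a + b) + (τ + a + (τ + b) + τ + c) := by rw [h1, add_zero]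
      have h4 : τ + (a + b) + (τ + a + (τ + b) + τ + c) =
          (τ + τ) + (τ + τ) + (a + a) + (b + b) + c := by abel
      rw [h3, h4]
      simp only [cls_add_self, add_zero, zero_add]
    show sqf (τ + (a + b)) ∈ T
    rw [← h2]
    exact hw
  neg_mem' := by
    intro a ha
    have h1 : -a = a := neg_eq_of_add_eq_zero_left (cls_add_self a)
    rwa [h1]

/-- Coset `T`, abstract form. -/
theorem formT {T : Set ℤ} (hT : TSet T) {lam : ℤ → ℝ}
    (hlam : ∀ B : ℝ, {d ∈ T | lam d ≤ B}.Finite) {r : ℤ → ℕ}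
    (hb : ∀ n : ℕ, ∃ M : ℕ, ∀ d ∈ T, d.natAbs.primeFactors.card ≤ n → r d ≤ M)
    {R : PowerSeries ℂ} (hR : coeff 0 R = 1) (t : ℤ) (ht : t ∈ T)
    (e : ℕ → ℕ) (he : ∀ i, (e i).Prime) (hinj : Function.Injective e) (l0 : ℝ)
    (hA : ∀ I : Finset ℕ, t * ((∏ i ∈ I, e i : ℕ) : ℤ) ∈ T ∧
      lam (t * ((∏ i ∈ I, e i : ℕ) : ℤ)) = l0 + ∑ i ∈ I, Real.log (e i)) :
    ∀ f : ℤ → PowerSeries ℂ,
      Pool.Agent.W_92892c_h88f.Par T (fun d => rescale (lam d : ℂ) (exp ℂ) * R) f →
      (∀ C : Finset ℤ, ((C : Set ℤ) ⊆ T ∧ MQV.IsCoset C ∧ C.card ≤ 4) →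
        coeff (∑ d ∈ C, r d) (∏ d ∈ C, f d) = 1) →
      ∀ d ∈ T, ∀ i < r d, coeff i (f d) = 0 := by
  classical
  intro f hpar hC
  obtain ⟨τ, hτ⟩ := exists_sqf (real := false) (d := t) ⟨hT.sqfree t ht, by simp⟩
  have hτT : sqf τ ∈ T := by rw [hτ]; exact ht
  have hmem : ∀ a : grp T hT τ hτT, sqf (τ + (a : Cls false)) ∈ T := fun a => a.2
  have hval : ∀ a b : grp T hT τ hτT, a ≠ b →
      sqf (τ + (a : Cls false)) ≠ sqf (τ + (b : Cls false)) := by
    intro a b hab h
    exact hab (Subtype.ext (add_left_cancel (sqf_injective h)))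
  have hsum : ∀ I : Finset ℕ, sqf (τ + ∑ i ∈ I, pcl (real := false) (e i) (he i)) =
      t * ((∏ i ∈ I, e i : ℕ) : ℤ) := by
    intro I
    apply int_sq (sqf_sqfree _) (hT.sqfree _ (hA I).1)
    have h1 : IsSquare (sqf (τ + ∑ i ∈ I, pcl (real := false) (e i) (he i)) * sqf τ *
        sqf (∑ i ∈ I, pcl (real := false) (e i) (he i)) * sqf (0 : Cls false)) := by
      apply isSquare_four
      rw [add_zero, show ∀ x y : Cls false, x + y + x + y = (x + x) + (y + y) by intro x y; abel]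
      simp only [cls_add_self, add_zero]
    rw [sqf_zero, mul_one, hτ, sqf_sum_pcl e he hinj, mul_assoc] at h1
    exact h1
  have hpm : ∀ i, pcl (real := false) (e i) (he i) ∈ grp T hT τ hτT := by
    intro i
    have h1 := hsum {i}
    rw [Finset.sum_singleton] at h1
    show sqf (τ + pcl (e i) (he i)) ∈ T
    rw [h1]
    exact (hA {i}).1
  have hcoe : ∀ I : Finset ℕ, ((∑ i ∈ I, (⟨pcl (e i) (he i), hpm i⟩ : grp T hT τ hτT) :
      grp T hT τ hτT) : Cls false) = ∑ i ∈ I, pcl (real := false) (e i) (he i) := by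
    intro I
    rw [AddSubgroup.val_finset_sum]
  have key := Pool.Agent.W_92892c_h88f.abs_all (D := grp T hT τ hτT)
    (fun a => Subtype.ext (cls_add_self _)) hR
    (fun a => lam (sqf (τ + (a : Cls false)))) ?_ (fun a => r (sqf (τ + (a : Cls false))))
    (fun a => f (sqf (τ + (a : Cls false)))) ?_ ?_ ?_ ?_
    (fun i => ⟨pcl (e i) (he i), hpm i⟩) l0 (fun i => Real.log (e i)) ?_ ?_ ?_
  · intro d hd i hi
    obtain ⟨δ, hδ⟩ := exists_sqf (real := false) (d := d) ⟨hT.sqfree d hd, by simp⟩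
    have h1 : τ + (τ + δ) = δ := by rw [← add_assoc, cls_add_self, zero_add]
    have h2 : τ + δ ∈ grp T hT τ hτT := by
      show sqf (τ + (τ + δ)) ∈ T
      rw [h1, hδ]
      exact hd
    have h3 := key ⟨τ + δ, h2⟩ i
    simp only [h1, hδ] at h3
    exact h3 hi
  · rw [tendsto_atTop]
    intro B
    rw [eventually_cofinite]
    have h1 : Set.InjOn (fun a : grp T hT τ hτT => sqf (τ + (a : Cls false)))
        ((fun a : grp T hT τ hτT => sqf (τ + (a : Cls false))) ⁻¹' {d ∈ T | lam d ≤ B}) := by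
      intro a _ b _ h
      by_contra hab
      exact hval a b hab h
    refine ((hlam B).preimage h1).subset ?_
    intro a ha
    exact ⟨hmem a, (not_le.1 ha).le⟩
  · intro a i j hi hj
    rw [mul_assoc]
    exact hpar _ (hmem a) i j hi hj
  · intro a
    have h1 := hC {sqf (τ + (a : Cls false))} ⟨by simpa using hmem a, isCoset_singleton _, by simp⟩
    simpa using h1
  · intro a b hab
    have h1 := hval a b hab
    have h2 := hC {sqf (τ + (a : Cls false)), sqf (τ + (b : Cls false))} ⟨by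
      intro x hx
      rcases Finset.mem_insert.1 (Finset.mem_coe.1 hx) with h | h
      · exact h ▸ hmem a
      · exact (Finset.mem_singleton.1 h) ▸ hmem b, isCoset_pair _ _,
      Finset.card_le_two.trans (by norm_num)⟩
    rw [Finset.sum_pair h1, Finset.prod_pair h1] at h2
    exact h2
  · intro a b d hab had hbd
    have n1 : (a : Cls false) ≠ b := fun h => hab (Subtype.ext h)
    have n2 : (a : Cls false) ≠ d := fun h => had (Subtype.ext h)
    have n3 : (b : Cls false) ≠ d := fun h => hbd (Subtype.ext h)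
    have h0 : (0 : Cls false) ∈ V4 (a : Cls false) b d := mem_V4.2 (Or.inl rfl)
    have h2 := hC (cst (τ + (a : Cls false)) (V4 (a : Cls false) b d)) ⟨?_,
      isCoset_cst h0 (V4_add _ _ _), by rw [card_cst]; exact card_V4 _ _ _⟩
    · rw [sum_cst, prod_cst] at h2
      simp only [add_assoc τ] at h2
      rw [sum_V4 (fun v => r (sqf (τ + v))) n1 n2 n3,
        prod_V4 (fun v => f (sqf (τ + v))) n1 n2 n3] at h2
      exact h2
    · intro x hx
      unfold cst at hx
      obtain ⟨v, hv, rfl⟩ := Finset.mem_image.1 (Finset.mem_coe.1 hx)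
      have h3 : v ∈ grp T hT τ hτT := by
        rcases mem_V4.1 hv with rfl | rfl | rfl | rfl
        · exact AddSubgroup.zero_mem _
        · exact AddSubgroup.add_mem _ a.2 b.2
        · exact AddSubgroup.add_mem _ a.2 d.2
        · exact AddSubgroup.add_mem _ b.2 d.2
      have h4 := AddSubgroup.add_mem _ a.2 h3
      show sqf (τ + (a : Cls false) + v) ∈ T
      rw [add_assoc]
      exact h4
  · intro i j hij
    have h1 : (0 : ℝ) < (e i : ℝ) := by exact_mod_cast (he i).pos
    have h2 : (0 : ℝ) < (e j : ℝ) := by exact_mod_cast (he j).pos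
    have h3 := Real.log_injOn_pos (Set.mem_Ioi.2 h1) (Set.mem_Ioi.2 h2) hij
    exact hinj (by exact_mod_cast h3)
  · intro I
    show lam (sqf (τ + ((∑ i ∈ I, (⟨pcl (e i) (he i), hpm i⟩ : grp T hT τ hτT) :
      grp T hT τ hτT) : Cls false))) = _
    rw [hcoe, hsum]
    exact (hA I).2
  · intro a N
    obtain ⟨M, hM⟩ := hb (om τ + (om (a : Cls false) + N))
    refine ⟨M, fun I hI => ?_⟩
    refine hM _ (hmem (a + ∑ i ∈ I, (⟨pcl (e i) (he i), hpm i⟩ : grp T hT τ hτT))) ?_
    refine (primeFactors_card_le _).trans ?_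
    rw [AddSubgroup.coe_add, hcoe]
    refine (om_add _ _).trans (Nat.add_le_add_left ((om_add _ _).trans
      (Nat.add_le_add_left ?_ _)) _)
    rw [om_sum_pcl e he hinj]
    exact hI

end MQF
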