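import Pool.Agent.W_92892c_h85.HandC
import Pool.Agent.W_92892c_h88f.Bri47
import Pool.Agent.W_92892c_h19f.Glue19

/-!
The leading-term formula, read literally, for the twists in a coset `T` of a group of square classes
(MP_92892c_nt, text FINITE / LOCAL).
-/

open Filter Topology

namespace MQF

open MQV PowerSeries Pool.Agent.W_92892c_h88f

/-- `T` with its conductors: a coset of a group of square classes, which contains `t m` for the
squarefree products `m` of primes of an infinite set, with `A_(t m) = A_0 m`. -/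
def CondT (T : Set ℤ) (A : ℤ → ℝ) : Prop :=
  TSet T ∧ ∃ t ∈ T, ∃ P : Set ℕ, P.Infinite ∧ (∀ p ∈ P, p.Prime) ∧ ∃ A0 : ℝ, 0 < A0 ∧
    ∀ m : ℕ, Squarefree m → (∀ p : ℕ, p.Prime → p ∣ m → p ∈ P) → t * m ∈ T ∧ A (t * m) = A0 * m

/-- Functions `L_d`, `d ∈ T`, analytic at `1`, with functional equations with one factor `γ` and with
numbers `A_d → ∞`, and constants `c_d ≠ 0`. -/
structure TFam (T : Set ℤ) (γ : ℂ → ℂ) (L : ℤ → ℂ → ℂ) (A : ℤ → ℝ) (c : ℤ → ℂ) : Prop where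
  gamma_an : AnalyticAt ℂ γ 1
  gamma_ne : γ 1 ≠ 0
  an : ∀ d ∈ T, AnalyticAt ℂ (L d) 1
  pos : ∀ d ∈ T, 0 < A d
  fe : ∀ d ∈ T, FunEqNear γ (L d) (A d)
  fin : ∀ B : ℝ, {d ∈ T | A d ≤ B}.Finite
  ne : ∀ d ∈ T, c d ≠ 0

variable {T : Set ℤ} {γ : ℂ → ℂ} {L : ℤ → ℂ → ℂ} {A : ℤ → ℝ} {c : ℤ → ℂ}

theorem par_serT (hF : TFam T γ L A c) :
    Par T (fun d => rescale ((Real.log (A d) : ℝ) : ℂ) (exp ℂ) * (PowerSeries.C (γ 1)⁻¹ * tay γ))
      (ser L c) := by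
  intro d hd i j hi hj
  obtain ⟨ε, hε⟩ := parity (hF.pos d hd) hF.gamma_an (hF.an d hd) (hF.fe d hd)
  have hA' : ((A d : ℝ) : ℂ) ≠ 0 := by exact_mod_cast (hF.pos d hd).ne'
  have hcc : PowerSeries.C ((A d : ℝ) : ℂ)⁻¹ * PowerSeries.C ((A d : ℝ) : ℂ) =
      (1 : PowerSeries ℂ) := by
    rw [← map_mul, inv_mul_cancel₀ hA', map_one]
  have h1 : ser L c d * (rescale ((Real.log (A d) : ℝ) : ℂ) (exp ℂ) *
      (PowerSeries.C (γ 1)⁻¹ * tay γ)) = PowerSeries.C ((c d)⁻¹ * (γ 1)⁻¹ * ((A d : ℝ) : ℂ)⁻¹) *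
      (tay (fun s => (A d : ℂ) ^ s) * tay γ * tay (L d)) := by
    unfold ser
    rw [tay_cpow (hF.pos d hd), map_mul, map_mul]
    calc PowerSeries.C (c d)⁻¹ * tay (L d) * (rescale ((Real.log (A d) : ℝ) : ℂ) (exp ℂ) *
          (PowerSeries.C (γ 1)⁻¹ * tay γ))
        = (PowerSeries.C ((A d : ℝ) : ℂ)⁻¹ * PowerSeries.C ((A d : ℝ) : ℂ)) *
          (PowerSeries.C (c d)⁻¹ * tay (L d) * (rescale ((Real.log (A d) : ℝ) : ℂ) (exp ℂ) *
          (PowerSeries.C (γ 1)⁻¹ * tay γ))) := by rw [hcc, one_mul]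
      _ = _ := by ring
  show coeff i (ser L c d * (rescale ((Real.log (A d) : ℝ) : ℂ) (exp ℂ) *
      (PowerSeries.C (γ 1)⁻¹ * tay γ))) * coeff j (ser L c d *
      (rescale ((Real.log (A d) : ℝ) : ℂ) (exp ℂ) * (PowerSeries.C (γ 1)⁻¹ * tay γ))) = 0
  rw [h1, coeff_C_mul, coeff_C_mul]
  have h2 := hε i
  have h3 := hε j
  rw [hi.neg_one_pow] at h2
  rw [hj.neg_one_pow] at h3
  generalize coeff i (tay (fun s => (A d : ℂ) ^ s) * tay γ * tay (L d)) = a at *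
  generalize coeff j (tay (fun s => (A d : ℂ) ^ s) * tay γ * tay (L d)) = b at *
  have h4 : 2 * (a * b) = 0 := by linear_combination (-b) * h2 + a * h3
  have h5 : a * b = 0 := (mul_eq_zero.1 h4).resolve_left two_ne_zero
  linear_combination ((c d)⁻¹ * (γ 1)⁻¹ * ((A d : ℝ) : ℂ)⁻¹) ^ 2 * h5

/-- The product of series with the expected leading terms. -/
theorem coeff_prod_lead (C : Finset ℤ) (r : ℤ → ℕ) (f : ℤ → PowerSeries ℂ)
    (h : ∀ d ∈ C, (∀ i < r d, coeff i (f d) = 0) ∧ coeff (r d) (f d) = 1) :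
    coeff (∑ d ∈ C, r d) (∏ d ∈ C, f d) = 1 := by
  have h1 : ∀ d : ℤ, ∃ g : PowerSeries ℂ, d ∈ C → f d = X ^ (r d) * g ∧ coeff 0 g = 1 := by
    intro d
    by_cases hd : d ∈ C
    · obtain ⟨g, hg⟩ := X_pow_dvd_iff.2 (h d hd).1
      refine ⟨g, fun _ => ⟨hg, ?_⟩⟩
      have h2 := (h d hd).2
      rw [hg, coeff_X_pow_mul', if_pos le_rfl, Nat.sub_self] at h2
      exact h2
    · exact ⟨0, fun h => absurd h hd⟩
  choose g hg using h1
  have h2 : ∏ d ∈ C, f d = X ^ (∑ d ∈ C, r d) * ∏ d ∈ C, g d := by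
    rw [← Finset.prod_pow_eq_pow_sum, ← Finset.prod_mul_distrib]
    exact Finset.prod_congr rfl fun d hd => (hg d hd).1
  rw [h2, coeff_X_pow_mul', if_pos le_rfl, Nat.sub_self, coeff_zero_eq_constantCoeff_apply,
    map_prod]
  refine Finset.prod_eq_one fun d hd => ?_
  rw [← coeff_zero_eq_constantCoeff_apply]
  exact (hg d hd).2

theorem bsd_ser (hF : TFam T γ L A c) {d : ℤ} (hd : d ∈ T) (r : ℕ) :
    BSD (L d) r (c d) ↔ (∀ i < r, coeff i (ser L c d) = 0) ∧ coeff r (ser L c d) = 1 := by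
  have hc := hF.ne d hd
  constructor
  · rintro ⟨h1, h2⟩
    refine ⟨fun i hi => ?_, ?_⟩
    · rw [coeff_ser, h1 i hi, zero_div, mul_zero]
    · rw [coeff_ser]
      rw [h2, inv_mul_cancel₀ hc]
  · rintro ⟨h1, h2⟩
    refine ⟨fun i hi => ?_, ?_⟩
    · have h4 := h1 i hi
      rw [coeff_ser] at h4
      have h5 : (i.factorial : ℂ) ≠ 0 := by exact_mod_cast i.factorial_ne_zero
      have h6 := (mul_eq_zero.1 h4).resolve_left (inv_ne_zero hc)
      exact (div_eq_zero_iff.1 h6).resolve_right h5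
    · rw [coeff_ser, inv_mul_eq_one₀ hc] at h2
      exact h2.symm

/-- The formal theorem for `T`. -/
theorem formA {a2 a4 a6 : ℤ} (hΔ : (gcurve a2 a4 a6 1).Δ ≠ 0) (hcond : CondT T A)
    (hg1 : γ 1 ≠ 0) (hpos : ∀ d ∈ T, 0 < A d)
    (hfin : ∀ B : ℝ, {d ∈ T | A d ≤ B}.Finite) :
    ∀ f : ℤ → PowerSeries ℂ,
      Par T (fun d => rescale ((Real.log (A d) : ℝ) : ℂ) (exp ℂ) *
        (PowerSeries.C (γ 1)⁻¹ * tay γ)) f →
      (∀ C : Finset ℤ, ((C : Set ℤ) ⊆ T ∧ MQV.IsCoset C ∧ C.card ≤ 4) →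
        coeff (∑ d ∈ C, rk a2 a4 a6 d) (∏ d ∈ C, f d) = 1) →
      ∀ d ∈ T, ∀ i < rk a2 a4 a6 d, coeff i (f d) = 0 := by
  obtain ⟨hT, t, ht, P, hP, hPp, A0, hA0, hA⟩ := hcond
  let e0 := hP.natEmbedding P
  let e : ℕ → ℕ := fun i => (e0 i : ℕ)
  have he : ∀ i, (e i).Prime := fun i => hPp _ (e0 i).2
  have hinj : Function.Injective e := fun i j hij => e0.injective (Subtype.ext hij)
  have hprod : ∀ I : Finset ℕ, ∀ p : ℕ, p.Prime → p ∣ (∏ i ∈ I, e i) → p ∈ P := by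
    intro I x hx hxd
    rw [hx.prime.dvd_finsetProd_iff] at hxd
    obtain ⟨i, _, hi⟩ := hxd
    rw [Nat.prime_dvd_prime_iff_eq hx (he i)] at hi
    rw [hi]
    exact (e0 i).2
  refine formT hT (lam := fun d => Real.log (A d)) ?_ ?_ ?_ t ht e he hinj (Real.log A0) ?_
  · intro B
    refine (hfin (Real.exp B)).subset ?_
    rintro d ⟨hd, hB⟩
    exact ⟨hd, (Real.log_le_iff_le_exp (hpos d hd)).1 hB⟩
  · intro n
    obtain ⟨M, hM⟩ := rk_bound hΔ false n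
    exact ⟨M, fun d hd => hM d ⟨hT.sqfree d hd, by simp⟩⟩
  · rw [coeff_C_mul, coeff_tay]
    simp [hg1]
  · intro I
    have h1 := hA _ (squarefree_prod_primes e he hinj I) (hprod I)
    refine ⟨h1.1, ?_⟩
    rw [h1.2]
    push_cast
    rw [Real.log_mul hA0.ne' (Finset.prod_ne_zero_iff.2 fun i _ => by
      exact_mod_cast (he i).ne_zero), Real.log_prod fun i _ => by
      exact_mod_cast (he i).ne_zero]

theorem quotK_T {a2 a4 a6 : ℤ} (hΔ : (gcurve a2 a4 a6 1).Δ ≠ 0) (hT : TSet T)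
    (hF : TFam T γ L A c) {C : Finset ℤ} (hC : (C : Set ℤ) ⊆ T) (hC' : MQV.IsCoset C) {d : ℤ}
    (hd : d ∈ C) : quotK a2 a4 a6 L c d C =
      coeff (∑ d ∈ C, rk a2 a4 a6 d) (∏ d ∈ C, ser L c d) := by
  rw [quotK_eq hΔ L c false C hC' (fun x hx => ⟨hT.sqfree x (hC hx), by simp⟩) d hd,
    quot_ser fun x hx => hF.an x (hC hx)]

/-- (A) The equivalence for every coset `T`. -/
theorem tfae_T {a2 a4 a6 : ℤ} (hΔ : (gcurve a2 a4 a6 1).Δ ≠ 0) (hcond : CondT T A)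
    (hF : TFam T γ L A c) : List.TFAE [
      ∀ d ∈ T, BSD (L d) (rk a2 a4 a6 d) (c d),
      ∀ C : Finset ℤ, ↑C ⊆ T → MQV.IsCoset C → ∀ d ∈ C, quotK a2 a4 a6 L c d C = 1,
      ∀ C : Finset ℤ, ↑C ⊆ T → MQV.IsCoset C → C.card ≤ 4 → ∀ d ∈ C,
        quotK a2 a4 a6 L c d C = 1] := by
  tfae_have 1 → 2 := by
    intro h C hC hC' d hd
    rw [quotK_T hΔ hcond.1 hF hC hC' hd]
    exact coeff_prod_lead C _ _ fun e he => (bsd_ser hF (hC he) _).1 (h e (hC he))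
  tfae_have 2 → 3 := by
    intro h C hC hC' _
    exact h C hC hC'
  tfae_have 3 → 1 := by
    intro h d hd
    rw [bsd_ser hF hd]
    refine ⟨formA hΔ hcond hF.gamma_ne hF.pos hF.fin (ser L c) (par_serT hF) ?_ d hd, ?_⟩
    · rintro C ⟨hC, hC', h4⟩
      obtain ⟨e, he⟩ := hC'.nonempty
      rw [← quotK_T hΔ hcond.1 hF hC hC' he]
      exact h C hC hC' h4 e he
    · have h1 := h {d} (by simpa using hd) (isCoset_singleton d) (by simp) d (by simp)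
      rw [quotK_T hΔ hcond.1 hF (by simpa using hd) (isCoset_singleton d) (by simp)] at h1
      simpa using h1
  tfae_finish

/-- (B) Finitely many cosets for a finite set of twists, for all `L`, `c`. -/
theorem fin_T {a2 a4 a6 : ℤ} (hΔ : (gcurve a2 a4 a6 1).Δ ≠ 0) (γ : ℂ → ℂ) (hcond : CondT T A)
    (D : Finset ℤ) (hD : (D : Set ℤ) ⊆ T) :
    ∃ Φ : Finset (Finset ℤ), (∀ C ∈ Φ, (C : Set ℤ) ⊆ T ∧ MQV.IsCoset C ∧ C.card ≤ 4) ∧
      ∀ (L : ℤ → ℂ → ℂ) (c : ℤ → ℂ), TFam T γ L A c →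
        (∀ C ∈ Φ, ∃ d ∈ C, quotK a2 a4 a6 L c d C = 1) →
        ∀ d ∈ D, BSD (L d) (rk a2 a4 a6 d) (c d) := by
  classical
  by_cases hex : ∃ (L : ℤ → ℂ → ℂ) (c : ℤ → ℂ), TFam T γ L A c
  · obtain ⟨L0, c0, hF0⟩ := hex
    have key : ∀ d : ℤ, ∃ Φ : Finset (Finset ℤ), d ∈ T →
        ((∀ C ∈ Φ, (C : Set ℤ) ⊆ T ∧ MQV.IsCoset C ∧ C.card ≤ 4) ∧
        ∀ f : ℤ → PowerSeries ℂ,
          Par T (fun d => rescale ((Real.log (A d) : ℝ) : ℂ) (exp ℂ) *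
            (PowerSeries.C (γ 1)⁻¹ * tay γ)) f →
          (∀ C ∈ Φ, coeff (∑ d ∈ C, rk a2 a4 a6 d) (∏ d ∈ C, f d) = 1) →
          ∀ i < rk a2 a4 a6 d, coeff i (f d) = 0) := by
      intro d
      by_cases hd : d ∈ T
      · obtain ⟨Φ, h⟩ := finite_cosets T (rk a2 a4 a6) _
          (fun C => (C : Set ℤ) ⊆ T ∧ MQV.IsCoset C ∧ C.card ≤ 4)
          (formA hΔ hcond hF0.gamma_ne hF0.pos hF0.fin) d hd
        exact ⟨Φ, fun _ => h⟩
      · exact ⟨∅, fun h => absurd h hd⟩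
    choose P hP using key
    refine ⟨D.biUnion P ∪ D.image (fun d => {d}), ?_, ?_⟩
    · intro C hC
      rcases Finset.mem_union.1 hC with hC | hC
      · obtain ⟨d, hd, hC⟩ := Finset.mem_biUnion.1 hC
        exact (hP d (hD hd)).1 C hC
      · obtain ⟨d, hd, rfl⟩ := Finset.mem_image.1 hC
        exact ⟨by simpa using hD hd, isCoset_singleton d, by simp⟩
    · intro L c hF hQ d hd
      have hdT := hD hd
      rw [bsd_ser hF hdT]
      refine ⟨(hP d hdT).2 (ser L c) (par_serT hF) fun C hC => ?_, ?_⟩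
      · have hC' := (hP d hdT).1 C hC
        obtain ⟨e, he, h1⟩ := hQ C (Finset.mem_union_left _ (Finset.mem_biUnion.2 ⟨d, hd, hC⟩))
        rw [← quotK_T hΔ hcond.1 hF hC'.1 hC'.2.1 he]
        exact h1
      · obtain ⟨e, he, h1⟩ := hQ {d} (Finset.mem_union_right _
          (Finset.mem_image.2 ⟨d, hd, rfl⟩))
        rw [quotK_T hΔ hcond.1 hF (by simpa using hdT) (isCoset_singleton d) he] at h1
        simpa using h1
  · exact ⟨∅, by simp, fun L c hF => absurd ⟨L, c, hF⟩ hex⟩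

end MQF
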