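import Mathlib

/-!
Hilbert's Nullstellensatz in countably many variables over the complex numbers, and the compactness
statement for systems of polynomial equations (MP_92892c_nt, text FINITE).
-/

namespace MQF

open Cardinal

/-- A proper ideal in countably many variables over `ℂ` has a zero. -/
theorem null_zero {σ : Type} [Countable σ] (I : Ideal (MvPolynomial σ ℂ)) (h : I ≠ ⊤) :
    ∃ x : σ → ℂ, ∀ p ∈ I, MvPolynomial.eval x p = 0 := by
  obtain ⟨M, hM, hIM⟩ := Ideal.exists_le_maximal I h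
  let _ : Field (MvPolynomial σ ℂ ⧸ M) := Ideal.Quotient.field M
  have halg : Algebra.IsAlgebraic ℂ (MvPolynomial σ ℂ ⧸ M) := by
    by_contra hna
    rw [Algebra.isAlgebraic_def] at hna
    push Not at hna
    obtain ⟨x, hx⟩ := hna
    have hx' : Transcendental ℂ x := hx
    have h1 := (hx'.linearIndependent_sub_inv).cardinal_le_rank
    have h2 : Module.rank ℂ (MvPolynomial σ ℂ ⧸ M) ≤ Module.rank ℂ (MvPolynomial σ ℂ) :=
      LinearMap.rank_le_of_surjective (Ideal.Quotient.mkₐ ℂ M).toLinearMap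
        (Ideal.Quotient.mkₐ_surjective ℂ M)
    have h3 : Module.rank ℂ (MvPolynomial σ ℂ) ≤ ℵ₀ := by
      rw [← (MvPolynomial.basisMonomials σ ℂ).mk_eq_rank'']
      exact Cardinal.mk_le_aleph0
    have h4 : (𝔠 : Cardinal.{0}) ≤ ℵ₀ := by
      rw [← Cardinal.mk_complex]
      exact (h1.trans h2).trans h3
    exact absurd h4 (not_le.2 Cardinal.aleph0_lt_continuum)
  have hbij : Function.Bijective (algebraMap ℂ (MvPolynomial σ ℂ ⧸ M)) :=
    IsAlgClosed.algebraMap_bijective_of_isIntegral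
  let e : (MvPolynomial σ ℂ ⧸ M) ≃ₐ[ℂ] ℂ :=
    (AlgEquiv.ofBijective (Algebra.ofId ℂ (MvPolynomial σ ℂ ⧸ M)) hbij).symm
  refine ⟨fun i => e (Ideal.Quotient.mk M (MvPolynomial.X i)), fun p hp => ?_⟩
  have h1 : (MvPolynomial.aeval fun i => e (Ideal.Quotient.mk M (MvPolynomial.X i))) =
      (e : (MvPolynomial σ ℂ ⧸ M) →ₐ[ℂ] ℂ).comp (Ideal.Quotient.mkₐ ℂ M) := by
    apply MvPolynomial.algHom_ext
    intro i
    simp
  have h2 := congrArg (fun f : MvPolynomial σ ℂ →ₐ[ℂ] ℂ => f p) h1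
  have h3 : Ideal.Quotient.mk M p = 0 := Ideal.Quotient.eq_zero_iff_mem.2 (hIM hp)
  simp only [AlgHom.comp_apply, Ideal.Quotient.mkₐ_eq_mk, h3, map_zero] at h2
  rw [← h2]
  rfl

/-- A system of polynomial equations in countably many variables without a zero has a finite
subsystem without a zero. -/
theorem null_finite {σ ι : Type} [Countable σ] (E : ι → MvPolynomial σ ℂ)
    (h : ∀ x : σ → ℂ, ∃ i, MvPolynomial.eval x (E i) ≠ 0) :
    ∃ s : Finset ι, ∀ x : σ → ℂ, ∃ i ∈ s, MvPolynomial.eval x (E i) ≠ 0 := by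
  classical
  have htop : Ideal.span (Set.range E) = ⊤ := by
    by_contra hne
    obtain ⟨x, hx⟩ := null_zero _ hne
    obtain ⟨i, hi⟩ := h x
    exact hi (hx _ (Ideal.subset_span ⟨i, rfl⟩))
  have h1 : (1 : MvPolynomial σ ℂ) ∈ Ideal.span (Set.range E) := by rw [htop]; trivial
  rw [Finsupp.mem_ideal_span_range_iff_exists_finsupp] at h1
  obtain ⟨c, hc⟩ := h1
  refine ⟨c.support, fun x => ?_⟩
  by_contra hno
  push Not at hno
  have h2 := congrArg (MvPolynomial.eval x) hc
  rw [Finsupp.sum, map_sum, map_one] at h2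
  rw [Finset.sum_eq_zero] at h2
  · exact zero_ne_one h2
  · intro i hi
    rw [map_mul, hno i hi, mul_zero]

end MQF
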